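import Mathlib

/-!
MP_58d537, helper67's proof, Theorems 2 and 3: the conflict inequality.
-/

set_option autoImplicit false

namespace Pool.MP_58d537_lc.H48

open Finset

/-- Theorem 1 (two-scale butterfly theorem) in the form used here: if no point is both red and
blue then `m |U| <= sqrt n 2^n / 2`. -/
def BF (n : ℕ) : Prop :=
  ∀ (m : ℕ) (U : Finset (Fin n → Bool)) (S : (Fin n → Bool) → Finset (Fin n)),
    (∀ u ∈ U, ∀ v ∈ U, ∀ z : Fin n → Bool,
      (∀ k, u k ≠ z k → k ∉ S u) → (univ.filter (fun k => u k ≠ z k)).card < m →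
      (∀ k, v k = z k → k ∈ S v) → (univ.filter (fun k => v k = z k)).card < m → False) →
    (m : ℝ) * (U.card : ℝ) ≤ Real.sqrt n * 2 ^ n / 2

/-- `mix u x y`: take `y` on the blocks with `u = true` and `x` elsewhere. -/
def mix {N n : ℕ} (blk : Fin N → Fin n) (u : Fin n → Bool) (x y : Fin N → Bool) : Fin N → Bool :=
  fun i => if u (blk i) then y i else x i

/-- the complementary pattern -/
def cpl {n : ℕ} (u : Fin n → Bool) : Fin n → Bool := fun k => !(u k)

/-- the swap of blocks as an equivalence of pairs -/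
def swp {N n : ℕ} (blk : Fin N → Fin n) (u : Fin n → Bool) :
    ((Fin N → Bool) × (Fin N → Bool)) ≃ ((Fin N → Bool) × (Fin N → Bool)) where
  toFun p := (mix blk u p.1 p.2, mix blk (cpl u) p.1 p.2)
  invFun p := (mix blk u p.1 p.2, mix blk (cpl u) p.1 p.2)
  left_inv := by
    rintro ⟨x, y⟩
    ext i
    · simp only [mix, cpl]
      by_cases h : u (blk i) <;> simp [h]
    · simp only [mix, cpl]
      by_cases h : u (blk i) <;> simp [h]
  right_inv := by
    rintro ⟨x, y⟩
    ext i
    · simp only [mix, cpl]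
      by_cases h : u (blk i) <;> simp [h]
    · simp only [mix, cpl]
      by_cases h : u (blk i) <;> simp [h]

/-- truncated minimum -/
noncomputable def big (c t : ℝ) : ℝ := if c < t then t else 0

lemma big_nonneg (c t : ℝ) (ht : 0 ≤ t) : 0 ≤ big c t := by
  unfold big; split_ifs <;> linarith

lemma le_add_big (c t : ℝ) (hc : 0 ≤ c) : t ≤ c + big c t := by
  unfold big; split_ifs with h
  · linarith
  · linarith

lemma big_le_sq (c t : ℝ) (hc : 0 < c) (ht : 0 ≤ t) : big c t ≤ t ^ 2 / c := by
  unfold big; split_ifs with h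
  · rw [le_div_iff₀ hc]; nlinarith
  · positivity

/-- Theorem 2. -/
theorem conflict_block {N n : ℕ} (hBF : BF n) (blk : Fin N → Fin n)
    (X Y : Finset (Fin N → Bool)) (a b : Fin n → (Fin N → Bool) → ℝ)
    (ha : ∀ k x, 0 ≤ a k x) (hb : ∀ k x, 0 ≤ b k x)
    (hc : ∀ x ∈ X, ∀ y ∈ Y,
      1 ≤ ∑ k : Fin n, if (∃ i, blk i = k ∧ x i ≠ y i) then min (a k x) (b k y) else 0)
    (m : ℕ) (hm : 1 ≤ m) :
    (X.card : ℝ) * Y.card ≤ (4 : ℝ) ^ N * (Real.sqrt n / (2 * m))
      + 16 * m * ∑ k : Fin n, (∑ x ∈ X, a k x) * (∑ y ∈ Y, b k y) := by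
  classical
  have hmR : (0 : ℝ) < m := by exact_mod_cast hm
  set c : ℝ := 1 / (4 * m) with hcdef
  have hc0 : 0 < c := by positivity
  -- the good pairs
  set good : (Fin N → Bool) × (Fin N → Bool) → Prop := fun p =>
    p.1 ∈ X ∧ p.2 ∈ Y ∧ ∑ k : Fin n, big c (min (a k p.1) (b k p.2)) ≤ 1 / 4 with hgood
  set G : Finset ((Fin N → Bool) × (Fin N → Bool)) := univ.filter good with hG
  -- the bad pairs are few
  have hbad : ((X ×ˢ Y).card : ℝ) ≤ (G.card : ℝ)
      + 16 * m * ∑ k : Fin n, (∑ x ∈ X, a k x) * (∑ y ∈ Y, b k y) := by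
    have h1 : (X ×ˢ Y).filter good = G := by
      ext p
      simp only [hG, mem_filter, mem_product, mem_univ, true_and, hgood]
      tauto
    have h2 : ((X ×ˢ Y).card : ℝ) = (G.card : ℝ) + (((X ×ˢ Y).filter (fun p => ¬ good p)).card : ℝ) := by
      rw [← h1]
      exact_mod_cast (Finset.card_filter_add_card_filter_not (s := X ×ˢ Y) good).symm
    have h3 : (((X ×ˢ Y).filter (fun p => ¬ good p)).card : ℝ)
        ≤ ∑ p ∈ X ×ˢ Y, 16 * m * ∑ k : Fin n, a k p.1 * b k p.2 := by
      rw [Finset.card_eq_sum_ones, Nat.cast_sum]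
      calc (∑ p ∈ (X ×ˢ Y).filter (fun p => ¬ good p), ((1 : ℕ) : ℝ))
          ≤ ∑ p ∈ (X ×ˢ Y).filter (fun p => ¬ good p), 16 * m * ∑ k : Fin n, a k p.1 * b k p.2 := by
            apply Finset.sum_le_sum
            intro p hp
            rw [mem_filter, mem_product] at hp
            obtain ⟨⟨hp1, hp2⟩, hp3⟩ := hp
            have h4 : 1 / 4 < ∑ k : Fin n, big c (min (a k p.1) (b k p.2)) := by
              by_contra h5
              push Not at h5
              exact hp3 ⟨hp1, hp2, h5⟩
            have h6 : ∑ k : Fin n, big c (min (a k p.1) (b k p.2))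
                ≤ ∑ k : Fin n, (4 * m) * (a k p.1 * b k p.2) := by
              apply Finset.sum_le_sum
              intro k _
              have h7 := big_le_sq c (min (a k p.1) (b k p.2)) hc0 (le_min (ha _ _) (hb _ _))
              have h8 : (min (a k p.1) (b k p.2)) ^ 2 ≤ a k p.1 * b k p.2 := by
                have := ha k p.1
                have := hb k p.2
                rcases le_total (a k p.1) (b k p.2) with h | h
                · rw [min_eq_left h]; nlinarith
                · rw [min_eq_right h]; nlinarith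
              calc big c (min (a k p.1) (b k p.2)) ≤ (min (a k p.1) (b k p.2)) ^ 2 / c := h7
                _ ≤ (a k p.1 * b k p.2) / c := by gcongr
                _ = (4 * m) * (a k p.1 * b k p.2) := by
                  rw [hcdef]; field_simp
            rw [← Finset.mul_sum] at h6
            push_cast
            nlinarith
        _ ≤ ∑ p ∈ X ×ˢ Y, 16 * m * ∑ k : Fin n, a k p.1 * b k p.2 := by
            apply Finset.sum_le_sum_of_subset_of_nonneg (Finset.filter_subset _ _)
            intro p _ _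
            apply mul_nonneg (by positivity)
            exact Finset.sum_nonneg (fun k _ => mul_nonneg (ha _ _) (hb _ _))
    have h9 : ∑ p ∈ X ×ˢ Y, 16 * (m : ℝ) * ∑ k : Fin n, a k p.1 * b k p.2
        = 16 * m * ∑ k : Fin n, (∑ x ∈ X, a k x) * (∑ y ∈ Y, b k y) := by
      rw [← Finset.mul_sum, Finset.sum_comm]
      congr 1
      apply Finset.sum_congr rfl
      intro k _
      rw [Finset.sum_product, Finset.sum_mul_sum]
    rw [h2]
    linarith
  -- the good pairs are few
  have hgd : (m : ℝ) * ((2 : ℝ) ^ n * G.card) ≤ (4 : ℝ) ^ N * (Real.sqrt n * 2 ^ n / 2) := by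
    -- count pairs (u, (x,y)) with swapped pair good
    have hcount : ((2 : ℝ) ^ n * G.card)
        = ∑ p : (Fin N → Bool) × (Fin N → Bool),
          ((univ.filter (fun u : Fin n → Bool => swp blk u p ∈ G)).card : ℝ) := by
      have h1 : ∀ u : Fin n → Bool,
          (∑ p : (Fin N → Bool) × (Fin N → Bool), if swp blk u p ∈ G then (1 : ℝ) else 0)
            = G.card := by
        intro u
        rw [Equiv.sum_comp (swp blk u) (fun q => if q ∈ G then (1 : ℝ) else 0)]
        simp
      have h2 : ∀ p : (Fin N → Bool) × (Fin N → Bool),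
          ((univ.filter (fun u : Fin n → Bool => swp blk u p ∈ G)).card : ℝ)
            = ∑ u : Fin n → Bool, if swp blk u p ∈ G then (1 : ℝ) else 0 := by
        intro p
        simp
      simp_rw [h2]
      rw [Finset.sum_comm]
      simp_rw [h1]
      simp
    rw [hcount, Finset.mul_sum]
    have hone : ∀ p : (Fin N → Bool) × (Fin N → Bool),
        (m : ℝ) * ((univ.filter (fun u : Fin n → Bool => swp blk u p ∈ G)).card : ℝ)
          ≤ Real.sqrt n * 2 ^ n / 2 := by
      rintro ⟨x, y⟩
      apply hBF m (univ.filter (fun u : Fin n → Bool => swp blk u (x, y) ∈ G))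
        (fun u => univ.filter (fun k => b k (mix blk (cpl u) x y) ≤ a k (mix blk u x y)))
      intro u hu v hv z hz1 hz2 hz3 hz4
      simp only [mem_filter, mem_univ, true_and, hG, hgood, swp, Equiv.coe_fn_mk] at hu hv
      simp only [mem_filter, mem_univ, true_and, not_le] at hz1 hz3
      obtain ⟨hu1, hu2, hu3⟩ := hu
      obtain ⟨hv1, hv2, hv3⟩ := hv
      have hcf := hc _ hu1 _ hv2
      -- bound every term
      have hterm : ∀ k : Fin n,
          (if (∃ i, blk i = k ∧ mix blk u x y i ≠ mix blk (cpl v) x y i) then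
            min (a k (mix blk u x y)) (b k (mix blk (cpl v) x y)) else 0)
          ≤ (if u k ≠ z k then (c + big c (min (a k (mix blk u x y)) (b k (mix blk (cpl u) x y)))) else 0)
            + (if v k = z k then (c + big c (min (a k (mix blk v x y)) (b k (mix blk (cpl v) x y)))) else 0) := by
        intro k
        have hn1 : 0 ≤ (if u k ≠ z k then (c + big c (min (a k (mix blk u x y)) (b k (mix blk (cpl u) x y)))) else 0) := by
          split_ifs
          · have := big_nonneg c (min (a k (mix blk u x y)) (b k (mix blk (cpl u) x y))) (le_min (ha _ _) (hb _ _))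
            linarith
          · exact le_refl _
        have hn2 : 0 ≤ (if v k = z k then (c + big c (min (a k (mix blk v x y)) (b k (mix blk (cpl v) x y)))) else 0) := by
          split_ifs
          · have := big_nonneg c (min (a k (mix blk v x y)) (b k (mix blk (cpl v) x y))) (le_min (ha _ _) (hb _ _))
            linarith
          · exact le_refl _
        by_cases hex : ∃ i, blk i = k ∧ mix blk u x y i ≠ mix blk (cpl v) x y i
        · rw [if_pos hex]
          obtain ⟨i, hi, hne⟩ := hex
          have huv : u k = v k := by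
            by_contra hh
            apply hne
            simp only [mix, cpl, hi]
            cases h1 : u k <;> cases h2 : v k <;> simp_all
          by_cases hz : u k = z k
          · -- second case
            have h5 := hz3 k (huv ▸ hz)
            have h6 : min (a k (mix blk v x y)) (b k (mix blk (cpl v) x y)) = b k (mix blk (cpl v) x y) :=
              min_eq_right h5
            have h7 := le_add_big c (min (a k (mix blk v x y)) (b k (mix blk (cpl v) x y))) hc0.le
            rw [if_pos (huv ▸ hz : v k = z k)]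
            have h8 : min (a k (mix blk u x y)) (b k (mix blk (cpl v) x y)) ≤ b k (mix blk (cpl v) x y) :=
              min_le_right _ _
            linarith
          · have h5 := hz1 k hz
            have h6 : min (a k (mix blk u x y)) (b k (mix blk (cpl u) x y)) = a k (mix blk u x y) :=
              min_eq_left h5.le
            have h7 := le_add_big c (min (a k (mix blk u x y)) (b k (mix blk (cpl u) x y))) hc0.le
            rw [if_pos (show u k ≠ z k from hz)]
            have h8 : min (a k (mix blk u x y)) (b k (mix blk (cpl v) x y)) ≤ a k (mix blk u x y) :=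
              min_le_left _ _
            linarith
        · rw [if_neg hex]
          linarith
      have hsum := Finset.sum_le_sum (fun k (_ : k ∈ (univ : Finset (Fin n))) => hterm k)
      rw [Finset.sum_add_distrib] at hsum
      have hA : (∑ k : Fin n, if u k ≠ z k then (c + big c (min (a k (mix blk u x y)) (b k (mix blk (cpl u) x y)))) else 0)
          ≤ c * ((m : ℝ) - 1) + 1 / 4 := by
        rw [← Finset.sum_filter, Finset.sum_add_distrib]
        apply add_le_add
        · rw [Finset.sum_const, nsmul_eq_mul, mul_comm]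
          apply mul_le_mul_of_nonneg_left _ hc0.le
          have : (((univ.filter (fun k => u k ≠ z k)).card : ℕ) : ℝ) + 1 ≤ m := by exact_mod_cast hz2
          linarith
        · refine le_trans ?_ hu3
          apply Finset.sum_le_sum_of_subset_of_nonneg (Finset.filter_subset _ _)
          intro k _ _
          exact big_nonneg _ _ (le_min (ha _ _) (hb _ _))
      have hB : (∑ k : Fin n, if v k = z k then (c + big c (min (a k (mix blk v x y)) (b k (mix blk (cpl v) x y)))) else 0)
          ≤ c * ((m : ℝ) - 1) + 1 / 4 := by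
        rw [← Finset.sum_filter, Finset.sum_add_distrib]
        apply add_le_add
        · rw [Finset.sum_const, nsmul_eq_mul, mul_comm]
          apply mul_le_mul_of_nonneg_left _ hc0.le
          have : (((univ.filter (fun k => v k = z k)).card : ℕ) : ℝ) + 1 ≤ m := by exact_mod_cast hz4
          linarith
        · refine le_trans ?_ hv3
          apply Finset.sum_le_sum_of_subset_of_nonneg (Finset.filter_subset _ _)
          intro k _ _
          exact big_nonneg _ _ (le_min (ha _ _) (hb _ _))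
      have hcm : c * m = 1 / 4 := by rw [hcdef]; field_simp
      nlinarith
    calc ∑ p : (Fin N → Bool) × (Fin N → Bool),
          (m : ℝ) * ((univ.filter (fun u : Fin n → Bool => swp blk u p ∈ G)).card : ℝ)
        ≤ ∑ p : (Fin N → Bool) × (Fin N → Bool), Real.sqrt n * 2 ^ n / 2 :=
          Finset.sum_le_sum (fun p _ => hone p)
      _ = (4 : ℝ) ^ N * (Real.sqrt n * 2 ^ n / 2) := by
          rw [Finset.sum_const, nsmul_eq_mul]
          congr 1
          rw [Finset.card_univ, Fintype.card_prod, Fintype.card_fun, Fintype.card_bool, Fintype.card_fin]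
          push_cast
          rw [← mul_pow]
          norm_num
  have hgd2 : (G.card : ℝ) ≤ (4 : ℝ) ^ N * (Real.sqrt n / (2 * m)) := by
    have h2n : (0 : ℝ) < 2 ^ n := by positivity
    have : (G.card : ℝ) * (m * 2 ^ n) ≤ (4 : ℝ) ^ N * (Real.sqrt n / (2 * m)) * (m * 2 ^ n) := by
      have h10 : (4 : ℝ) ^ N * (Real.sqrt n / (2 * m)) * (m * 2 ^ n)
          = (4 : ℝ) ^ N * (Real.sqrt n * 2 ^ n / 2) := by
        field_simp
      rw [h10]
      linarith
    exact le_of_mul_le_mul_right this (by positivity)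
  rw [Finset.card_product] at hbad
  push_cast at hbad
  linarith

/-- greedy choice of blocks -/
lemma exists_blocks {N n : ℕ} (hn : 0 < n) (α β : Fin N → ℝ) (hα : ∀ i, 0 ≤ α i)
    (hβ : ∀ i, 0 ≤ β i) (s : Finset (Fin N)) :
    ∃ blk : Fin N → Fin n,
      ∑ k : Fin n, (∑ i ∈ s.filter (fun i => blk i = k), α i) * (∑ i ∈ s.filter (fun i => blk i = k), β i)
        ≤ ∑ i ∈ s, α i * β i + (∑ i ∈ s, α i) * (∑ i ∈ s, β i) / n := by
  classical
  have hnR : (0 : ℝ) < n := by exact_mod_cast hn
  induction s using Finset.induction_on with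
  | empty => exact ⟨fun _ => ⟨0, hn⟩, by simp⟩
  | insert j s hj ih =>
    obtain ⟨blk, hblk⟩ := ih
    -- block sums
    set A : Fin n → ℝ := fun k => ∑ i ∈ s.filter (fun i => blk i = k), α i with hA
    set B : Fin n → ℝ := fun k => ∑ i ∈ s.filter (fun i => blk i = k), β i with hB
    have hAs : ∑ k, A k = ∑ i ∈ s, α i := by
      simp only [hA]
      exact Finset.sum_fiberwise s blk α
    have hBs : ∑ k, B k = ∑ i ∈ s, β i := by
      simp only [hB]
      exact Finset.sum_fiberwise s blk β
    -- a good block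
    obtain ⟨k₀, hk₀⟩ : ∃ k₀ : Fin n, A k₀ * β j + α j * B k₀
        ≤ ((∑ i ∈ s, α i) * β j + α j * (∑ i ∈ s, β i)) / n := by
      by_contra hcon
      push Not at hcon
      have h1 : ∑ _k : Fin n, ((∑ i ∈ s, α i) * β j + α j * (∑ i ∈ s, β i)) / n
          < ∑ k : Fin n, (A k * β j + α j * B k) := by
        apply Finset.sum_lt_sum_of_nonempty
        · exact ⟨⟨0, hn⟩, mem_univ _⟩
        · intro k _
          exact hcon k
      rw [Finset.sum_const, Finset.sum_add_distrib, ← Finset.sum_mul, ← Finset.mul_sum, hAs, hBs,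
        Finset.card_univ, Fintype.card_fin, nsmul_eq_mul] at h1
      rw [mul_div_cancel₀ _ hnR.ne'] at h1
      exact lt_irrefl _ h1
    refine ⟨Function.update blk j k₀, ?_⟩
    have hfil : ∀ k, (insert j s).filter (fun i => Function.update blk j k₀ i = k)
        = if k = k₀ then insert j (s.filter (fun i => blk i = k)) else s.filter (fun i => blk i = k) := by
      intro k
      ext i
      by_cases hij : i = j
      · subst hij
        by_cases hk : k = k₀
        · simp [hk]
        · have hk' : k₀ ≠ k := fun h => hk h.symm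
          simp [hk, hk', hj]
      · by_cases hk : k = k₀
        · simp [hij, hk, Function.update_of_ne hij]
        · simp [hij, hk, Function.update_of_ne hij]
    have hsA : ∀ k, ∑ i ∈ (insert j s).filter (fun i => Function.update blk j k₀ i = k), α i
        = A k + if k = k₀ then α j else 0 := by
      intro k
      rw [hfil]
      split_ifs with hk
      · rw [Finset.sum_insert (by simp [hj]), add_comm]
      · simp [hA]
    have hsB : ∀ k, ∑ i ∈ (insert j s).filter (fun i => Function.update blk j k₀ i = k), β i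
        = B k + if k = k₀ then β j else 0 := by
      intro k
      rw [hfil]
      split_ifs with hk
      · rw [Finset.sum_insert (by simp [hj]), add_comm]
      · simp [hB]
    simp_rw [hsA, hsB]
    have hexp : ∀ k : Fin n, (A k + if k = k₀ then α j else 0) * (B k + if k = k₀ then β j else 0)
        = A k * B k + if k = k₀ then (A k * β j + α j * B k + α j * β j) else 0 := by
      intro k
      split_ifs <;> ring
    simp_rw [hexp]
    rw [Finset.sum_add_distrib, Finset.sum_ite_eq' univ k₀, if_pos (mem_univ _),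
      Finset.sum_insert hj, Finset.sum_insert hj, Finset.sum_insert hj]
    have h0 : 0 ≤ α j * β j / n := by
      have := hα j; have := hβ j; positivity
    have h3 : (α j + ∑ i ∈ s, α i) * (β j + ∑ i ∈ s, β i) / n
        = α j * β j / n + ((∑ i ∈ s, α i) * β j + α j * (∑ i ∈ s, β i)) / n
          + (∑ i ∈ s, α i) * (∑ i ∈ s, β i) / n := by
      ring
    rw [h3]
    have h4 : ∑ k, A k * B k ≤ ∑ i ∈ s, α i * β i + (∑ i ∈ s, α i) * (∑ i ∈ s, β i) / n := hblk
    linarith

/-- Theorem 3. -/
theorem conflict_bits {N n : ℕ} (hn : 0 < n) (hBF : BF n)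
    (X Y : Finset (Fin N → Bool)) (a b : Fin N → (Fin N → Bool) → ℝ)
    (ha : ∀ i x, 0 ≤ a i x) (hb : ∀ i x, 0 ≤ b i x)
    (hc : ∀ x ∈ X, ∀ y ∈ Y, 1 ≤ ∑ i : Fin N, if x i ≠ y i then min (a i x) (b i y) else 0)
    (m : ℕ) (hm : 1 ≤ m) :
    (X.card : ℝ) * Y.card ≤ (4 : ℝ) ^ N * (Real.sqrt n / (2 * m))
      + 16 * m * (∑ i : Fin N, (∑ x ∈ X, a i x) * (∑ y ∈ Y, b i y)
        + (∑ i : Fin N, ∑ x ∈ X, a i x) * (∑ i : Fin N, ∑ y ∈ Y, b i y) / n) := by
  classical
  obtain ⟨blk, hblk⟩ := exists_blocks hn (fun i => ∑ x ∈ X, a i x) (fun i => ∑ y ∈ Y, b i y)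
    (fun i => Finset.sum_nonneg (fun x _ => ha i x)) (fun i => Finset.sum_nonneg (fun x _ => hb i x)) univ
  have h := conflict_block hBF blk X Y
    (fun k x => ∑ i ∈ univ.filter (fun i => blk i = k), a i x)
    (fun k x => ∑ i ∈ univ.filter (fun i => blk i = k), b i x)
    (fun k x => Finset.sum_nonneg (fun i _ => ha i x))
    (fun k x => Finset.sum_nonneg (fun i _ => hb i x)) ?_ m hm
  · refine h.trans ?_
    have h2 : ∀ k : Fin n, (∑ x ∈ X, ∑ i ∈ univ.filter (fun i => blk i = k), a i x)
        * (∑ y ∈ Y, ∑ i ∈ univ.filter (fun i => blk i = k), b i y)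
        = (∑ i ∈ univ.filter (fun i => blk i = k), ∑ x ∈ X, a i x)
          * (∑ i ∈ univ.filter (fun i => blk i = k), ∑ y ∈ Y, b i y) := by
      intro k
      rw [Finset.sum_comm, Finset.sum_comm (s := Y)]
    simp_rw [h2]
    have h3 : (0 : ℝ) ≤ 16 * m := by positivity
    have h4 := mul_le_mul_of_nonneg_left hblk h3
    linarith
  · intro x hx y hy
    refine (hc x hx y hy).trans ?_
    rw [← Finset.sum_fiberwise univ blk]
    apply Finset.sum_le_sum
    intro k _
    by_cases hex : ∃ i, blk i = k ∧ x i ≠ y i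
    · rw [if_pos hex]
      apply le_min
      · apply Finset.sum_le_sum
        intro i _
        split_ifs
        · exact min_le_left _ _
        · exact ha i x
      · apply Finset.sum_le_sum
        intro i _
        split_ifs
        · exact min_le_right _ _
        · exact hb i y
    · rw [if_neg hex]
      apply le_of_eq
      apply Finset.sum_eq_zero
      intro i hi
      rw [mem_filter] at hi
      rw [if_neg]
      intro hne
      exact hex ⟨i, hi.2, hne⟩

/-- Quantitative form: a query system with conflicts has a heavy variable. -/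
theorem heavy_variable {N : ℕ} (hBF : ∀ n, BF n)
    (X Y : Finset (Fin N → Bool)) (q : Fin N → (Fin N → Bool) → ℝ)
    (hq : ∀ i x, 0 ≤ q i x) (T κ : ℝ) (hκ : 0 < κ) (hT : ∀ x, ∑ i : Fin N, q i x ≤ T)
    (hc : ∀ x ∈ X, ∀ y ∈ Y, κ ≤ ∑ i : Fin N, if x i ≠ y i then min (q i x) (q i y) else 0)
    (π : ℝ) (hπ : 0 < π) (hπ' : π * 4 ^ N ≤ (X.card : ℝ) * Y.card) :
    ∃ i : Fin N, κ ^ 4 * π ^ 4 / (2 ^ 15 * T ^ 3) ≤ (∑ x : Fin N → Bool, q i x) / 2 ^ N := by
  classical
  have h4N : (0 : ℝ) < 4 ^ N := by positivity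
  have h2N : (0 : ℝ) < 2 ^ N := by positivity
  -- X and Y are nonempty
  have hXY : (0 : ℝ) < (X.card : ℝ) * Y.card := lt_of_lt_of_le (by positivity) hπ'
  have hX : X.Nonempty := by
    rw [Finset.nonempty_iff_ne_empty]; rintro rfl; simp at hXY
  have hY : Y.Nonempty := by
    rw [Finset.nonempty_iff_ne_empty]; rintro rfl; simp at hXY
  obtain ⟨x₀, hx₀⟩ := hX
  obtain ⟨y₀, hy₀⟩ := hY
  have hκT : κ ≤ T := by
    refine (hc x₀ hx₀ y₀ hy₀).trans (le_trans ?_ (hT x₀))
    apply Finset.sum_le_sum
    intro i _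
    split_ifs
    · exact min_le_left _ _
    · exact hq i x₀
  have hT0 : 0 < T := lt_of_lt_of_le hκ hκT
  -- π ≤ 1
  have hcX : (X.card : ℝ) ≤ 2 ^ N := by
    have := Finset.card_le_univ X
    rw [Fintype.card_fun, Fintype.card_bool, Fintype.card_fin] at this
    exact_mod_cast this
  have hcY : (Y.card : ℝ) ≤ 2 ^ N := by
    have := Finset.card_le_univ Y
    rw [Fintype.card_fun, Fintype.card_bool, Fintype.card_fin] at this
    exact_mod_cast this
  have h42 : (4 : ℝ) ^ N = 2 ^ N * 2 ^ N := by rw [← mul_pow]; norm_num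
  have hπ1 : π ≤ 1 := by
    have h1 : (X.card : ℝ) * Y.card ≤ 2 ^ N * 2 ^ N :=
      mul_le_mul hcX hcY (by positivity) (by positivity)
    have h2 : π * 4 ^ N ≤ 1 * 4 ^ N := by
      rw [one_mul]
      refine hπ'.trans (h1.trans (le_of_eq h42.symm))
    exact le_of_mul_le_mul_right h2 h4N
  -- parameters
  set s : ℝ := T / κ with hs
  have hs1 : 1 ≤ s := by rw [hs, le_div_iff₀ hκ]; linarith
  set r : ℕ := ⌈128 * s ^ 2 / π ^ 2⌉₊ with hr
  have hr1 : 128 * s ^ 2 / π ^ 2 ≤ r := Nat.le_ceil _
  have hsp : 1 ≤ s ^ 2 / π ^ 2 := by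
    rw [le_div_iff₀ (by positivity)]
    have : π ^ 2 ≤ 1 := by nlinarith
    nlinarith
  have hr2 : (r : ℝ) ≤ 129 * (s ^ 2 / π ^ 2) := by
    have h1 : (r : ℝ) < 128 * s ^ 2 / π ^ 2 + 1 := Nat.ceil_lt_add_one (by positivity)
    have h2 : 128 * s ^ 2 / π ^ 2 = 128 * (s ^ 2 / π ^ 2) := by ring
    rw [h2] at h1
    linarith
  have hr3 : (1 : ℝ) ≤ r := by
    have h2 : 128 * s ^ 2 / π ^ 2 = 128 * (s ^ 2 / π ^ 2) := by ring
    rw [h2] at hr1
    linarith
  have hr0 : 0 < r := by
    have : (0 : ℝ) < r := by linarith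
    exact_mod_cast this
  set m : ℕ := ⌈(r : ℝ) / π⌉₊ with hmd
  have hm1 : (r : ℝ) / π ≤ m := Nat.le_ceil _
  have hrp : 1 ≤ (r : ℝ) / π := by rw [le_div_iff₀ hπ]; linarith
  have hm2 : (m : ℝ) ≤ 2 * (r / π) := by
    have h1 : (m : ℝ) < r / π + 1 := Nat.ceil_lt_add_one (by positivity)
    linarith
  have hm0 : 1 ≤ m := by
    have : (1 : ℝ) ≤ m := by linarith
    exact_mod_cast this
  have hmR : (0 : ℝ) < m := by
    have : (1 : ℝ) ≤ m := by exact_mod_cast hm0
    linarith
  by_contra hcon
  push Not at hcon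
  set δ : ℝ := κ ^ 3 * π ^ 4 / (2 ^ 15 * T ^ 3) with hδ
  have hδκ : κ ^ 4 * π ^ 4 / (2 ^ 15 * T ^ 3) = κ * δ := by rw [hδ]; ring
  have hδs : δ = π ^ 4 / (2 ^ 15 * s ^ 3) := by
    rw [hδ, hs]; field_simp
  -- the conflict inequality for q/κ
  have hmain := conflict_bits (N := N) (n := r ^ 2) (by positivity) (hBF (r ^ 2)) X Y
    (fun i x => q i x / κ) (fun i x => q i x / κ)
    (fun i x => div_nonneg (hq i x) hκ.le) (fun i x => div_nonneg (hq i x) hκ.le)
    (by
      intro x hx y hy
      have h1 := hc x hx y hy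
      have h2 : ∑ i : Fin N, (if x i ≠ y i then min (q i x / κ) (q i y / κ) else 0)
          = (∑ i : Fin N, if x i ≠ y i then min (q i x) (q i y) else 0) / κ := by
        rw [Finset.sum_div]
        apply Finset.sum_congr rfl
        intro i _
        split_ifs
        · rw [min_div_div_right hκ.le]
        · simp
      rw [h2, le_div_iff₀ hκ]
      linarith) m hm0
  have hsq : Real.sqrt ((r ^ 2 : ℕ) : ℝ) = r := by
    push_cast
    exact Real.sqrt_sq (by positivity)
  rw [hsq] at hmain
  -- bounds of the sums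
  have hAi : ∀ (Z : Finset (Fin N → Bool)) (i : Fin N), ∑ x ∈ Z, q i x / κ ≤ δ * 2 ^ N := by
    intro Z i
    have h1 := hcon i
    rw [hδκ, div_lt_iff₀ h2N] at h1
    have h2 : ∑ x ∈ Z, q i x ≤ ∑ x : Fin N → Bool, q i x :=
      Finset.sum_le_sum_of_subset_of_nonneg (Finset.subset_univ _) (fun x _ _ => hq i x)
    rw [← Finset.sum_div, div_le_iff₀ hκ]
    calc ∑ x ∈ Z, q i x ≤ ∑ x : Fin N → Bool, q i x := h2
      _ ≤ κ * δ * 2 ^ N := h1.le
      _ = δ * 2 ^ N * κ := by ring
  have hAs : ∀ (Z : Finset (Fin N → Bool)), ∑ i : Fin N, ∑ x ∈ Z, q i x / κ ≤ s * 2 ^ N := by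
    intro Z
    rw [Finset.sum_comm]
    calc ∑ x ∈ Z, ∑ i : Fin N, q i x / κ ≤ ∑ x : Fin N → Bool, ∑ i : Fin N, q i x / κ := by
          apply Finset.sum_le_sum_of_subset_of_nonneg (Finset.subset_univ _)
          intro x _ _
          exact Finset.sum_nonneg (fun i _ => div_nonneg (hq i x) hκ.le)
      _ ≤ ∑ x : Fin N → Bool, s := by
          apply Finset.sum_le_sum
          intro x _
          rw [← Finset.sum_div, hs]
          exact div_le_div_of_nonneg_right (hT x) hκ.le
      _ = s * 2 ^ N := by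
          rw [Finset.sum_const, nsmul_eq_mul, Finset.card_univ, Fintype.card_fun, Fintype.card_bool,
            Fintype.card_fin]
          push_cast
          ring
  have hA0 : ∀ (Z : Finset (Fin N → Bool)) (i : Fin N), 0 ≤ ∑ x ∈ Z, q i x / κ :=
    fun Z i => Finset.sum_nonneg (fun x _ => div_nonneg (hq i x) hκ.le)
  have hδ0 : 0 < δ := by rw [hδ]; positivity
  have hP1 : ∑ i : Fin N, (∑ x ∈ X, q i x / κ) * (∑ y ∈ Y, q i y / κ) ≤ δ * 2 ^ N * (s * 2 ^ N) := by
    calc ∑ i : Fin N, (∑ x ∈ X, q i x / κ) * (∑ y ∈ Y, q i y / κ)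
        ≤ ∑ i : Fin N, (δ * 2 ^ N) * (∑ y ∈ Y, q i y / κ) := by
          apply Finset.sum_le_sum
          intro i _
          exact mul_le_mul_of_nonneg_right (hAi X i) (hA0 Y i)
      _ = (δ * 2 ^ N) * ∑ i : Fin N, (∑ y ∈ Y, q i y / κ) := by rw [Finset.mul_sum]
      _ ≤ δ * 2 ^ N * (s * 2 ^ N) := mul_le_mul_of_nonneg_left (hAs Y) (by positivity)
  have hP2 : (∑ i : Fin N, ∑ x ∈ X, q i x / κ) * (∑ i : Fin N, ∑ y ∈ Y, q i y / κ)
      ≤ (s * 2 ^ N) * (s * 2 ^ N) :=
    mul_le_mul (hAs X) (hAs Y) (Finset.sum_nonneg (fun i _ => hA0 Y i)) (by positivity)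
  have hfin : π * 4 ^ N ≤ (4 : ℝ) ^ N * (r / (2 * m))
      + 16 * m * (δ * 2 ^ N * (s * 2 ^ N) + (s * 2 ^ N) * (s * 2 ^ N) / ((r ^ 2 : ℕ) : ℝ)) := by
    refine hπ'.trans (hmain.trans ?_)
    gcongr
  have hfin2 : π ≤ r / (2 * m) + 16 * m * (δ * s + s ^ 2 / r ^ 2) := by
    have h1 : (4 : ℝ) ^ N * (r / (2 * m))
      + 16 * m * (δ * 2 ^ N * (s * 2 ^ N) + (s * 2 ^ N) * (s * 2 ^ N) / ((r ^ 2 : ℕ) : ℝ))
      = (r / (2 * m) + 16 * m * (δ * s + s ^ 2 / r ^ 2)) * 4 ^ N := by
      push_cast
      rw [h42]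
      ring
    rw [h1] at hfin
    exact le_of_mul_le_mul_right hfin h4N
  -- numerical contradiction
  have hrR : (0 : ℝ) < r := by linarith
  have hn1 : (r : ℝ) / (2 * m) ≤ π / 2 := by
    rw [div_le_iff₀ (by positivity)]
    rw [div_le_iff₀ hπ] at hm1
    linarith
  have hn2 : 16 * (m : ℝ) * (s ^ 2 / r ^ 2) ≤ π / 4 := by
    have h1 : 16 * (m : ℝ) * (s ^ 2 / r ^ 2) ≤ 16 * (2 * (r / π)) * (s ^ 2 / r ^ 2) := by gcongr
    have h2 : 16 * (2 * (r / π)) * (s ^ 2 / r ^ 2) = 32 * s ^ 2 / (π * r) := by field_simp; ring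
    rw [h2] at h1
    refine h1.trans ?_
    rw [div_le_iff₀ (by positivity)]
    rw [div_le_iff₀ (by positivity)] at hr1
    nlinarith
  have hn3 : 16 * (m : ℝ) * (δ * s) < π / 4 := by
    have h1 : 16 * (m : ℝ) * (δ * s) ≤ 16 * (2 * (r / π)) * (δ * s) := by gcongr
    have h2 : 16 * (2 * ((r : ℝ) / π)) * (δ * s) ≤ 16 * (2 * ((129 * (s ^ 2 / π ^ 2)) / π)) * (δ * s) := by
      gcongr
    have h3 : 16 * (2 * ((129 * (s ^ 2 / π ^ 2)) / π)) * (δ * s) = (4128 / 2 ^ 15) * π := by
      rw [hδs]; field_simp; ring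
    rw [h3] at h2
    have h4 : (4128 / 2 ^ 15 : ℝ) * π < π / 4 := by
      have : (4128 / 2 ^ 15 : ℝ) < 1 / 4 := by norm_num
      nlinarith
    linarith
  have hn4 : 16 * (m : ℝ) * (δ * s + s ^ 2 / r ^ 2) = 16 * m * (δ * s) + 16 * m * (s ^ 2 / r ^ 2) := by ring
  rw [hn4] at hfin2
  linarith

end Pool.MP_58d537_lc.H48
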